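import Pool.Agent.Lib.MP_04668c_co.E.Base

/-!
# BASE: the independent base shapes, from the independent transversal theorem
-/

set_option autoImplicit false
set_option linter.unusedSectionVars false

namespace Pool.Agent.Lib.MP_04668c_co.E.H43

open Finset Classical Module
open Pool.Agent.Lib.MP_04668c_co Pool.Agent.Lib.MP_04668c_co.E

theorem ip_single_zero {V : Type} [Fintype V] (v : V) (F : V → ℝ × ℝ) :
    ip (Pi.single v (e2 0) : V → ℝ × ℝ) F = (F v).1 := by
  rw [ip_apply, Finset.sum_eq_single v]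
  · simp [e2]
  · intro u _ hu
    rw [Pi.single_eq_of_ne hu]
    simp
  · intro h
    exact absurd (mem_univ _) h

theorem ip_single_one {V : Type} [Fintype V] (v : V) (F : V → ℝ × ℝ) :
    ip (Pi.single v (e2 1) : V → ℝ × ℝ) F = (F v).2 := by
  rw [ip_apply, Finset.sum_eq_single v]
  · simp [e2]
  · intro u _ hu
    rw [Pi.single_eq_of_ne hu]
    simp
  · intro h
    exact absurd (mem_univ _) h

theorem base (h : RadoStatement) : BaseStatement := by
  intro V X _ _ B hB hdim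
  set N : Submodule ℝ (X → V → ℝ × ℝ) := famK B univ ⊓ LinearMap.ker sumMap with hN
  set g : X → V → Fin 2 → (N →ₗ[ℝ] ℝ) := fun x v a =>
    (ip (Pi.single v (e2 a) : V → ℝ × ℝ)).comp ((LinearMap.proj x).comp N.subtype) with hg
  have hgv : ∀ x v a (Φ : N), g x v a Φ = ip (Pi.single v (e2 a) : V → ℝ × ℝ) (Φ.1 x) :=
    fun x v a Φ => rfl
  set F : X → Finset (N →ₗ[ℝ] ℝ) := fun x =>
    ((B x) ×ˢ (univ : Finset (Fin 2))).image (fun p => g x p.1 p.2) with hF
  have hmem : ∀ x v a, v ∈ B x → g x v a ∈ F x := by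
    intro x v a hv
    exact Finset.mem_image.mpr ⟨(v, a), Finset.mem_product.mpr ⟨hv, mem_univ _⟩, rfl⟩
  have hne : ∀ x, (F x).Nonempty := by
    intro x
    have h1 : (B x).Nonempty := by
      rw [← Finset.card_pos]
      have := hB x
      omega
    obtain ⟨v, hv⟩ := h1
    exact ⟨_, hmem x v 0 hv⟩
  have hfin : ∀ K : Finset X,
      finrank ℝ (⨅ x ∈ Kᶜ, ⨅ f ∈ F x, LinearMap.ker f : Submodule ℝ N) ≤ K.card := by
    intro K
    refine le_trans ?_ (hdim K)
    rw [← Submodule.finrank_map_subtype_eq N]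
    refine Submodule.finrank_mono ?_
    rintro _ ⟨Φ, hΦ, rfl⟩
    have hΦ1 : ∀ x, x ∉ K → ∀ v a, v ∈ B x → g x v a Φ = 0 := by
      intro x hx v a hv
      have h1 := (Submodule.mem_iInf _).mp hΦ x
      have h2 := (Submodule.mem_iInf _).mp h1 (Finset.mem_compl.mpr hx)
      have h3 := (Submodule.mem_iInf _).mp h2 (g x v a)
      have h4 := (Submodule.mem_iInf _).mp h3 (hmem x v a hv)
      exact LinearMap.mem_ker.mp h4
    obtain ⟨hΦ2, hΦ3⟩ := Submodule.mem_inf.mp Φ.2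
    obtain ⟨-, hs, hz⟩ := (mem_famK B univ Φ.1).mp hΦ2
    refine Submodule.mem_inf.mpr ⟨(mem_famK B K _).mpr ⟨?_, hs, hz⟩, hΦ3⟩
    intro x hx
    funext v
    by_cases hv : v ∈ B x
    · have e0 := hΦ1 x hx v 0 hv
      have e1 := hΦ1 x hx v 1 hv
      rw [hgv, ip_single_zero] at e0
      rw [hgv, ip_single_one] at e1
      exact Prod.ext e0 e1
    · exact hs x v hv
  obtain ⟨f, hf, hker⟩ := h N X F hne hfin
  have hch : ∀ x, ∃ p : V × Fin 2, p.1 ∈ B x ∧ g x p.1 p.2 = f x := by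
    intro x
    obtain ⟨p, hp, hp2⟩ := Finset.mem_image.mp (hf x)
    exact ⟨p, (Finset.mem_product.mp hp).1, hp2⟩
  choose p hp hpf using hch
  refine ⟨fun x => (p x).1, fun x => (p x).2, hp, ?_⟩
  intro Φ hΦ hip hsum
  have hΦN : Φ ∈ N := Submodule.mem_inf.mpr ⟨hΦ, LinearMap.mem_ker.mpr hsum⟩
  have h1 : (⟨Φ, hΦN⟩ : N) ∈ (⨅ x, LinearMap.ker (f x) : Submodule ℝ N) := by
    refine (Submodule.mem_iInf _).mpr (fun x => ?_)
    rw [LinearMap.mem_ker, ← hpf x, hgv]
    exact hip x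
  rw [hker, Submodule.mem_bot] at h1
  exact congrArg Subtype.val h1

end Pool.Agent.Lib.MP_04668c_co.E.H43
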